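import Pool.Agent.H74.G.R_seed8.H718R2.G0

/-!
# Local actions of compact Lie groups, homogeneous periodic submanifolds: definitions
-/

set_option autoImplicit false

open scoped Manifold ContDiff Topology
open Filter Set Metric

universe u

namespace Pool.Agent.TH80.CLX

open Pool.Agent.H718R2.G

/-- `act` is a smooth action of the Lie group `G` on the open subset `O` of the manifold `N`. The Lie
group is given as a topological group with a faithful continuous representation `ι` by complex
matrices (every compact Lie group has one). Smoothness: for every family `c` of elements of `G` whose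
matrices depend smoothly on a parameter `s ∈ ℝʲ`, the map `(s, y) ↦ c(s) y` is smooth. -/
structure IsLieAction (n : ℕ) (N : Type u) [TopologicalSpace N] [ChartedSpace (V n) N]
    {G : Type} [Group G] [TopologicalSpace G] {q : ℕ} (ι : G →* Matrix (Fin q) (Fin q) ℂ)
    (O : Set N) (act : G → N → N) : Prop where
  rep_cont : Continuous ι
  rep_inj : Function.Injective ι
  isOpen : IsOpen O
  maps : ∀ g, ∀ y ∈ O, act g y ∈ O
  one : ∀ y ∈ O, act 1 y = y
  mul : ∀ g h, ∀ y ∈ O, act (g * h) y = act g (act h y)
  cont : ContinuousOn (fun p : G × N => act p.1 p.2) (univ ×ˢ O)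
  smooth : ∀ (j : ℕ) (c : V j → G), (∀ a b, ContDiff ℝ ∞ fun s => ι (c s) a b) →
    ContMDiffOn ((𝓡 j).prod (𝓡 n)) (𝓡 n) ∞ (fun p : V j × N => act (c p.1) p.2) (univ ×ˢ O)

/-- `y` lies on a homogeneous periodic submanifold of `F`: some compact Lie group `G` acts smoothly
on an open set `O` which contains `y`, and the orbit `C = G y` is periodic with some period `m ≥ 1`
(`F^m(C) = C`, and `F^i(C)` does not meet `C` for `1 ≤ i < m`), and `F^m` commutes on `C` with the
action. Nothing is required of `F` outside of `C, F(C), ..., F^(m-1)(C)`. -/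
def IsHomPer (n : ℕ) (N : Type u) [TopologicalSpace N] [ChartedSpace (V n) N] (F : N → N)
    (y : N) : Prop :=
  ∃ (G : Type) (_ : Group G) (_ : TopologicalSpace G) (_ : CompactSpace G) (q : ℕ)
    (ι : G →* Matrix (Fin q) (Fin q) ℂ) (O : Set N) (act : G → N → N),
    IsLieAction n N ι O act ∧ y ∈ O ∧
    ∃ m : ℕ, 1 ≤ m ∧ (∃ g, F^[m] y = act g y) ∧ (∀ g, F^[m] (act g y) = act g (F^[m] y)) ∧
      ∀ i, 1 ≤ i → i < m → ∀ g h, F^[i] (act g y) ≠ act h y

end Pool.Agent.TH80.CLX
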