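import Pool.Agent.H74.G.R_seed8.TH290.CL.TC
import Pool.Agent.H74.G.R_seed8.W564.SC.Lib

/-!
# Perturbations of a diffeomorphism by a cut-off action of a vector group
-/

set_option autoImplicit false
set_option linter.unusedSectionVars false

open scoped Manifold ContDiff Topology NNReal
open Filter Set Metric

universe u

namespace Pool.Agent.TH80.CLX

open Pool.Agent.H718R2.G Pool.Agent.W564.SC Pool.Agent.TH290.CL

section mem

variable {n : ℕ} {N : Type u} [TopologicalSpace N] [T2Space N] [CompactSpace N]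
  [ChartedSpace (V n) N] [IsManifold (𝓡 n) ∞ N]

/-- A family of diffeomorphisms stays in a neighbourhood for small parameters. -/
theorem fam_mem (r : ℕ∞) (hr : 1 ≤ r) {P : Type} [NormedAddCommGroup P] [NormedSpace ℝ P]
    (H : P → DiffM n N r) (hH : IsFam n N r H) (z : N) (U : Set (DiffM n N r))
    (hU : IsOpen[strongTop n N r] U) (h0 : H 0 ∈ U) :
    ∃ κ : ℝ, 0 < κ ∧ ∀ s : P, ‖s‖ < κ → H s ∈ U := by
  obtain ⟨χ, hχ⟩ := Pool.Agent.W699.SC.gc n N z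
  obtain ⟨k, hk, hkr, κ, hκ, hNB⟩ := t_NBHD n N r hr P H hH χ z hχ U hU h0
  refine ⟨κ, hκ, fun s hs => ?_⟩
  have h1 := hNB s (fun _ => 0) (Diffeomorph.refl (𝓡 n) N r) hs
    ⟨contDiff_const, fun _ _ => rfl, fun l _ x => by
        have e : iteratedFDeriv ℝ l (fun _ : V n => (0 : V n)) x = 0 := by
          have := iteratedFDeriv_fun_zero (𝕜 := ℝ) (E := V n) (F := V n) (n := l)
          exact congrFun this x
        rw [e, norm_zero]
        exact hκ.le⟩ ⟨fun y hy => ⟨hy, by rw [add_zero]; rfl⟩, fun y _ => rfl⟩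
  have e : (H s).trans (Diffeomorph.refl (𝓡 n) N r) = H s := by
    ext y
    rfl
  rw [e] at h1
  exact h1

end mem

section fam

variable {n : ℕ} {N : Type u} [TopologicalSpace N] [ChartedSpace (V n) N] [IsManifold (𝓡 n) ∞ N]
  {j : ℕ} {A : V j → N → N}
  (hA : ContMDiff ((𝓡 j).prod (𝓡 n)) (𝓡 n) ∞ (fun p : V j × N => A p.1 p.2))
  {ρ : N → ℝ} (hρ : ContMDiff (𝓡 n) 𝓘(ℝ, ℝ) ∞ ρ)

include hA hρ in
theorem act_loc_smooth (y₀ : N) (t₀ : V j) :
    ContDiffAt ℝ ∞ (fun q : V j × V n => ρ (A q.1 ((chartAt (V n) y₀).symm q.2)))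
      (t₀, chartAt (V n) y₀ y₀) := by
  rw [← contMDiffAt_iff_contDiffAt]
  have h1 : ContMDiffAt 𝓘(ℝ, V j × V n) (𝓡 j) ∞ (fun q : V j × V n => q.1)
      (t₀, chartAt (V n) y₀ y₀) := contDiffAt_fst.contMDiffAt
  have h2 : ContMDiffAt 𝓘(ℝ, V j × V n) (𝓡 n) ∞ (fun q : V j × V n => q.2)
      (t₀, chartAt (V n) y₀ y₀) := contDiffAt_snd.contMDiffAt
  have h3 : ContMDiffAt (𝓡 n) (𝓡 n) ∞ (chartAt (V n) y₀).symm (chartAt (V n) y₀ y₀) := by
    have h4 : ContMDiffOn (𝓡 n) (𝓡 n) ∞ (chartAt (V n) y₀).symm (chartAt (V n) y₀).target :=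
      contMDiffOn_symm_of_mem_maximalAtlas (IsManifold.chart_mem_maximalAtlas y₀)
    exact h4.contMDiffAt ((chartAt (V n) y₀).open_target.mem_nhds
      ((chartAt (V n) y₀).map_source (mem_chart_source _ y₀)))
  have h5 : ContMDiffAt 𝓘(ℝ, V j × V n) (𝓡 n) ∞
      (fun q : V j × V n => (chartAt (V n) y₀).symm q.2) (t₀, chartAt (V n) y₀ y₀) :=
    ContMDiffAt.comp (g := (chartAt (V n) y₀).symm) (f := fun q : V j × V n => q.2) _ h3 h2
  have h6 : ContMDiffAt 𝓘(ℝ, V j × V n) ((𝓡 j).prod (𝓡 n)) ∞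
      (fun q : V j × V n => (q.1, (chartAt (V n) y₀).symm q.2)) (t₀, chartAt (V n) y₀ y₀) :=
    h1.prodMk h5
  have h7 : ContMDiffAt 𝓘(ℝ, V j × V n) (𝓡 n) ∞
      (fun q : V j × V n => A q.1 ((chartAt (V n) y₀).symm q.2)) (t₀, chartAt (V n) y₀ y₀) :=
    ContMDiffAt.comp (g := fun q : V j × N => A q.1 q.2)
      (f := fun q : V j × V n => (q.1, (chartAt (V n) y₀).symm q.2)) _ hA.contMDiffAt h6
  exact ContMDiffAt.comp (g := ρ)
    (f := fun q : V j × V n => A q.1 ((chartAt (V n) y₀).symm q.2)) _ hρ.contMDiffAt h7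

include hA hρ in
/-- uniform Lipschitz bound near the parameter `0` -/
theorem act_lip [CompactSpace N] :
    ∃ (L : ℝ≥0) (δ : ℝ), 0 < δ ∧ ∀ y : N, ∀ s : V j, ‖s‖ < δ →
      ‖ρ (A s y) - ρ (A 0 y)‖ ≤ L * ‖s‖ := by
  have key : ∃ (L : ℝ≥0) (δ : ℝ), 0 < δ ∧ ∀ y ∈ (univ : Set N), ∀ s : V j, ‖s‖ < δ →
      ‖ρ (A s y) - ρ (A 0 y)‖ ≤ L * ‖s‖ := by
    refine isCompact_univ.induction_on (p := fun O : Set N => ∃ (L : ℝ≥0) (δ : ℝ), 0 < δ ∧
      ∀ y ∈ O, ∀ s : V j, ‖s‖ < δ → ‖ρ (A s y) - ρ (A 0 y)‖ ≤ L * ‖s‖) ?_ ?_ ?_ ?_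
    · exact ⟨0, 1, one_pos, fun y hy => absurd hy (notMem_empty y)⟩
    · rintro s t hst ⟨L, δ, hδ, h⟩
      exact ⟨L, δ, hδ, fun y hy => h y (hst hy)⟩
    · rintro s t ⟨L, δ, hδ, h⟩ ⟨L', δ', hδ', h'⟩
      refine ⟨max L L', min δ δ', lt_min hδ hδ', ?_⟩
      rintro y (hy | hy) u hu
      · refine (h y hy u (hu.trans_le (min_le_left _ _))).trans ?_
        exact mul_le_mul_of_nonneg_right (NNReal.coe_le_coe.2 (le_max_left _ _)) (norm_nonneg _)
      · refine (h' y hy u (hu.trans_le (min_le_right _ _))).trans ?_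
        exact mul_le_mul_of_nonneg_right (NNReal.coe_le_coe.2 (le_max_right _ _)) (norm_nonneg _)
    · intro y₀ _
      obtain ⟨L, s, hs, hL⟩ := ((act_loc_smooth hA hρ y₀ 0).of_le
        (by exact_mod_cast le_top : (1 : WithTop ℕ∞) ≤ ∞)).exists_lipschitzOnWith
      rw [nhds_prod_eq] at hs
      obtain ⟨s1, hs1, s2, hs2, hs12⟩ := Filter.mem_prod_iff.1 hs
      obtain ⟨δ, hδ, hδ2⟩ := Metric.mem_nhds_iff.1 hs1
      refine ⟨(chartAt (V n) y₀).source ∩ (chartAt (V n) y₀) ⁻¹' s2, ?_, L, δ, hδ, ?_⟩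
      · apply mem_nhdsWithin_of_mem_nhds
        exact inter_mem (chart_source_mem_nhds _ y₀)
          ((chartAt (V n) y₀).continuousAt (mem_chart_source _ y₀) |>.preimage_mem_nhds hs2)
      · rintro y ⟨hy1, hy2⟩ t ht
        have m1 : ((t, chartAt (V n) y₀ y) : V j × V n) ∈ s := hs12 ⟨hδ2 (by
          rw [mem_ball, dist_zero_right]
          exact ht), hy2⟩
        have m2 : (((0 : V j), chartAt (V n) y₀ y) : V j × V n) ∈ s := hs12 ⟨mem_of_mem_nhds hs1, hy2⟩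
        have h1 := hL.dist_le_mul _ m1 _ m2
        simp only [(chartAt (V n) y₀).left_inv hy1] at h1
        rw [dist_eq_norm, dist_eq_norm, Prod.mk_sub_mk, sub_self, sub_zero, Prod.norm_def] at h1
        simpa using h1
  obtain ⟨L, δ, hδ, h⟩ := key
  exact ⟨L, δ, hδ, fun y => h y (mem_univ _)⟩

variable (h0 : ∀ y, A 0 y = y) (hadd : ∀ s t y, A (s + t) y = A s (A t y))

include hA h0 hadd in
theorem act_flow (s : V j) : IsFlow n N (fun t y => A (t • s) y) := by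
  refine ⟨?_, fun y => ?_, fun t t' y => ?_⟩
  · have h1 : ContMDiff (𝓘(ℝ, ℝ).prod (𝓡 n)) ((𝓡 j).prod (𝓡 n)) ∞
        (fun p : ℝ × N => ((p.1 • s, p.2) : V j × N)) := by
      refine ContMDiff.prodMk ?_ contMDiff_snd
      have h2 : ContDiff ℝ ∞ (fun t : ℝ => t • s) := contDiff_id.smul contDiff_const
      exact h2.contMDiff.comp contMDiff_fst
    exact hA.comp h1
  · show A ((0 : ℝ) • s) y = y
    rw [zero_smul, h0]
  · show A ((t + t') • s) y = A (t • s) (A (t' • s) y)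
    rw [add_smul, hadd]

include hA hρ h0 hadd in
theorem act_fam [CompactSpace N] (r : ℕ∞) (F : DiffM n N r) :
    ∃ (H : V j → DiffM n N r) (κ : ℝ), 0 < κ ∧ H 0 = F ∧ IsFam n N r H ∧
      ∀ s, ‖s‖ < κ → ∀ y, H s y = F (A (ρ y • s) y) := by
  have hr : (r : WithTop ℕ∞) ≤ ∞ := by exact_mod_cast le_top
  obtain ⟨L, δ, hδ, hL⟩ := act_lip hA hρ
  have hL0 : (0 : ℝ) ≤ L := L.2
  set κ : ℝ := 1 / (2 * (1 + L)) with hκd
  have hκ0 : 0 < κ := by positivity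
  have hκ1 : L * κ ≤ 1 / 2 := by
    rw [hκd]
    rw [mul_one_div, div_le_div_iff₀ (by positivity) (by norm_num)]
    linarith
  have hlip : ∀ s : V j, ‖s‖ < κ → ∀ y, LipschitzWith (1 / 2)
      (fun t : ℝ => ρ (A (t • s) y)) := by
    intro s hs y
    have hfl := act_flow hA h0 hadd s
    have hd : Differentiable ℝ (fun t : ℝ => ρ (A (t • s) y)) :=
      (line_smooth hfl hρ y).differentiable (by simp)
    apply lipschitzWith_of_nnnorm_deriv_le hd
    intro t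
    rw [← NNReal.coe_le_coe, coe_nnnorm]
    have h3 : ((1 / 2 : ℝ≥0) : ℝ) = 1 / 2 := by norm_num
    rw [h3]
    apply norm_deriv_le_of_lip' (by norm_num)
    have hc : Tendsto (fun u : ℝ => ‖(u - t) • s‖) (𝓝 t) (𝓝 ‖(t - t) • s‖) := by
      have : Continuous (fun u : ℝ => ‖(u - t) • s‖) := by fun_prop
      exact this.tendsto t
    rw [sub_self, zero_smul, norm_zero] at hc
    filter_upwards [hc.eventually (gt_mem_nhds hδ)] with u hu
    have h1 := hL (A (t • s) y) ((u - t) • s) hu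
    rw [← hadd, ← hadd, ← add_smul, sub_add_cancel, zero_add] at h1
    refine h1.trans ?_
    rw [norm_smul]
    have h4 : L * (‖u - t‖ * ‖s‖) ≤ L * (‖u - t‖ * κ) := by
      gcongr
    refine h4.trans ?_
    have h5 : 0 ≤ ‖u - t‖ := norm_nonneg _
    nlinarith
  have key : ∀ s : V j, ∃ G : DiffM n N r, (‖s‖ < κ → ∀ y, G y = F (A (ρ y • s) y)) ∧
      (¬ ‖s‖ < κ → G = F) := by
    intro s
    by_cases hs : ‖s‖ < κ
    · obtain ⟨G, hG⟩ := tc (act_flow hA h0 hadd s) hρ (hlip s hs) r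
      refine ⟨G.trans F, fun _ y => ?_, fun h => absurd hs h⟩
      show F (G y) = _
      rw [hG]
    · exact ⟨F, fun h => absurd h hs, fun _ => rfl⟩
  choose H hH1 hH2 using key
  refine ⟨H, κ, hκ0, ?_, ?_, hH1⟩
  · ext y
    rw [hH1 0 (by rw [norm_zero]; exact hκ0), smul_zero, h0]
  · intro y
    have hq' : Tendsto (fun z : V j × N => ‖z.1‖) (𝓝 ((0 : V j), y)) (𝓝 ‖(0 : V j)‖) :=
      continuous_fst.norm.tendsto _
    have hev : ∀ᶠ z : V j × N in 𝓝 ((0 : V j), y), ‖z.1‖ < κ :=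
      hq'.eventually (gt_mem_nhds (by rw [norm_zero]; exact hκ0))
    have e1 : (fun z : V j × N => H z.1 z.2) =ᶠ[𝓝 ((0 : V j), y)]
        (fun z => F (A (ρ z.2 • z.1) z.2)) := by
      filter_upwards [hev] with z hz
      exact hH1 z.1 hz z.2
    refine ContMDiffAt.congr_of_eventuallyEq ?_ e1
    have s1 : ContMDiff ((𝓡 j).prod (𝓡 n)) (𝓡 j) ∞ (fun z : V j × N => ρ z.2 • z.1) := by
      have h1 : ContMDiff ((𝓡 j).prod (𝓡 n)) 𝓘(ℝ, ℝ × V j) ∞
          (fun z : V j × N => ((ρ z.2, z.1) : ℝ × V j)) :=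
        (hρ.comp contMDiff_snd).prodMk_space contMDiff_fst
      have h2 : ContDiff ℝ ∞ (fun z : ℝ × V j => z.1 • z.2) := contDiff_fst.smul contDiff_snd
      exact h2.contMDiff.comp h1
    have s2 : ContMDiff ((𝓡 j).prod (𝓡 n)) ((𝓡 j).prod (𝓡 n)) ∞
        (fun z : V j × N => ((ρ z.2 • z.1, z.2) : V j × N)) := s1.prodMk contMDiff_snd
    have s3 : ContMDiff ((𝓡 j).prod (𝓡 n)) (𝓡 n) ∞
        (fun z : V j × N => A (ρ z.2 • z.1) z.2) := hA.comp s2
    exact (F.contMDiff.comp (s3.of_le hr)).contMDiffAt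

end fam

end Pool.Agent.TH80.CLX
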